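import Pool.Agent.H73.CBE.Stmts

/-!
Row CON of the board `cbe` (MP_e1af46_an): the conclusion of part A.
-/

set_option autoImplicit false

open Set Filter Topology

namespace Pool.CBE

theorem CON_thm (_h1 : DLBStmt) (h2 : NETStmt) (h3 : FDRStmt) (h4 : FBDStmt) (h5 : VARStmt)
    (h6 : LLAStmt) (h7 : CSTStmt) : CONStmt := by
  intro n hn
  obtain ⟨C, hC1, hC⟩ := h4 n hn
  obtain ⟨K, hK1, hK⟩ := h7 n C hn hC1
  have hC0 : (0 : ℝ) < C := lt_of_lt_of_le one_pos hC1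
  have hKR : (1 : ℝ) ≤ (K : ℝ) := by exact_mod_cast hK1
  have hKp : (1 : ℝ) ≤ (K : ℝ) ^ (4 * n) := one_le_pow₀ hKR
  have hKp0 : (0 : ℝ) < (K : ℝ) ^ (4 * n) := lt_of_lt_of_le one_pos hKp
  have hη0 : (0 : ℝ) < C / (K : ℝ) ^ (4 * n) := div_pos hC0 hKp0
  refine ⟨C / (K : ℝ) ^ (4 * n), C, hη0, div_le_self hC0.le hKp, ?_⟩
  intro d hd
  have hdR : (0 : ℝ) < (d : ℝ) := by
    have : 0 < d := by omega
    exact_mod_cast this
  have hsd : (0 : ℝ) < √(d : ℝ) := Real.sqrt_pos.2 hdR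
  obtain ⟨T, hT⟩ := h2 n (1 / √(d : ℝ)) hn (by positivity)
  obtain ⟨X, hX⟩ := h2 n (1 / (2 * (K : ℝ) ^ (4 * n) * √(d : ℝ))) hn (by positivity)
  obtain ⟨w, hw, hwX⟩ := h6 n K d (C / (K : ℝ) ^ (4 * n)) T X hn hK1 hd hη0 hK hT hX.1
  obtain ⟨b1, b2, b3⟩ := hC d T w hd hT.1 hw
  obtain ⟨f1, f2, -⟩ := h3 n d T w (by omega)
  refine ⟨T, w, ?_, b2⟩
  intro z hz
  refine ⟨?_, b1 z hz⟩
  obtain ⟨x, hxX, hxz⟩ := hX.2 z hz
  have hx1 : ‖x‖ = 1 := hX.1.1 x hxX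
  have hv := h5 n d (fm d T w) C (by omega) hC0.le f1 f2 b2 x z hx1 hz
  have h31 := hwX x hxX
  have h32 := b3 K x hK1 hx1
  have h33 : ‖fm d (near T x (K / √(d : ℝ))) w x‖ ≤ ‖fm d T w x‖ +
      ‖fm d T w x - fm d (near T x (K / √(d : ℝ))) w x‖ := by
    have := norm_sub_norm_le (fm d (near T x (K / √(d : ℝ))) w x) (fm d T w x)
    rw [norm_sub_rev] at this
    linarith
  have h34 : 2 * C * √(d : ℝ) * dl x z ≤ C / (K : ℝ) ^ (4 * n) := by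
    have h35 : 2 * C * √(d : ℝ) * dl x z ≤
        2 * C * √(d : ℝ) * (1 / (2 * (K : ℝ) ^ (4 * n) * √(d : ℝ))) :=
      mul_le_mul_of_nonneg_left hxz.le (by positivity)
    refine h35.trans (le_of_eq ?_)
    field_simp
  linarith

end Pool.CBE
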